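import Pool.Agent.N983.RT.Stm

set_option autoImplicit false

/-! From boxes to vectors: a linear functional which is bounded by `K √|A|` on the indicator
functions of all sets `A` is bounded by `K √(1 + log |S|)` times the `ℓ²` norm on nonnegative
functions (Abel summation over the sorted values), and by four times this on complex functions. This
is applied to the three arguments of the trilinear form one after the other. -/

namespace Pool.Agent.U170.RT.DIG

open Pool.Agent.N983.RT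

/-- the sorted bound -/
theorem sorted {ι : Type*} [DecidableEq ι] (t : ι → ℂ) (K : ℝ) (hK : 0 ≤ K) :
    ∀ (n : ℕ) (S : Finset ι), S.card = n →
    (∀ A ⊆ S, A.Nonempty → ‖∑ k ∈ A, t k‖ ≤ K * Real.sqrt A.card) →
    ∀ x : ι → ℝ, (∀ k ∈ S, 0 ≤ x k) →
    ∃ σ : ι → ℕ, Set.InjOn σ S ∧ (∀ k ∈ S, 1 ≤ σ k ∧ σ k ≤ n) ∧
      ‖∑ k ∈ S, t k * (x k : ℂ)‖ ≤ K * ∑ k ∈ S, x k / Real.sqrt (σ k) := by
  intro n
  induction n with
  | zero =>
    intro S hS _ x _
    rw [Finset.card_eq_zero] at hS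
    subst hS
    exact ⟨fun _ => 0, by simp, by simp, by simp⟩
  | succ n ih =>
    intro S hS hA x hx
    have hne : S.Nonempty := by
      rw [← Finset.card_pos]
      omega
    obtain ⟨k0, hk0, hmin⟩ := Finset.exists_min_image S x hne
    have hm0 : 0 ≤ x k0 := hx k0 hk0
    obtain ⟨σ, hinj, hσ, hb⟩ := ih (S.erase k0) (by rw [Finset.card_erase_of_mem hk0, hS]; rfl)
      (fun A hAS hAn => hA A (hAS.trans (Finset.erase_subset _ _)) hAn) (fun k => x k - x k0)
      (fun k hk => sub_nonneg.2 (hmin k (Finset.mem_of_mem_erase hk)))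
    refine ⟨Function.update σ k0 (n + 1), ?_, ?_, ?_⟩
    · intro i hi j hj hij
      by_cases h1 : i = k0
      · by_cases h2 : j = k0
        · rw [h1, h2]
        · exfalso
          subst h1
          rw [Function.update_self, Function.update_of_ne h2] at hij
          have := (hσ j (Finset.mem_erase.2 ⟨h2, hj⟩)).2
          omega
      · by_cases h2 : j = k0
        · exfalso
          subst h2
          rw [Function.update_self, Function.update_of_ne h1] at hij
          have := (hσ i (Finset.mem_erase.2 ⟨h1, hi⟩)).2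
          omega
        · rw [Function.update_of_ne h1, Function.update_of_ne h2] at hij
          exact hinj (by simp [h1]; exact hi) (by simp [h2]; exact hj) hij
    · intro k hk
      by_cases h1 : k = k0
      · subst h1
        rw [Function.update_self]
        omega
      · rw [Function.update_of_ne h1]
        have := hσ k (Finset.mem_erase.2 ⟨h1, hk⟩)
        omega
    · have e1 : ∑ k ∈ S, t k * (x k : ℂ) = (x k0 : ℂ) * ∑ k ∈ S, t k +
          ∑ k ∈ S.erase k0, t k * ((x k - x k0 : ℝ) : ℂ) := by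
        have e2 : ∑ k ∈ S, t k * ((x k - x k0 : ℝ) : ℂ) =
            ∑ k ∈ S.erase k0, t k * ((x k - x k0 : ℝ) : ℂ) := by
          rw [← Finset.sum_erase_add S _ hk0]
          simp
        rw [← e2, Finset.mul_sum, ← Finset.sum_add_distrib]
        refine Finset.sum_congr rfl fun k _ => ?_
        push_cast
        ring
      have e3 : ∑ k ∈ S, x k / Real.sqrt (Function.update σ k0 (n + 1) k : ℕ) =
          ∑ k ∈ S.erase k0, x k / Real.sqrt (σ k) + x k0 / Real.sqrt ((n : ℝ) + 1) := by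
        rw [← Finset.sum_erase_add S _ hk0, Function.update_self]
        push_cast
        congr 1
        refine Finset.sum_congr rfl fun k hk => ?_
        rw [Function.update_of_ne (Finset.ne_of_mem_erase hk)]
      have hs : 0 < Real.sqrt ((n : ℝ) + 1) := Real.sqrt_pos.2 (by positivity)
      have hs2 : Real.sqrt ((n : ℝ) + 1) * Real.sqrt ((n : ℝ) + 1) = (n : ℝ) + 1 :=
        Real.mul_self_sqrt (by positivity)
      have e4 : (n : ℝ) / Real.sqrt ((n : ℝ) + 1) ≤ ∑ k ∈ S.erase k0, 1 / Real.sqrt (σ k) := by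
        have h1 : ∑ k ∈ S.erase k0, (1 / Real.sqrt ((n : ℝ) + 1)) ≤
            ∑ k ∈ S.erase k0, 1 / Real.sqrt (σ k) := by
          refine Finset.sum_le_sum fun k hk => ?_
          have h2 := hσ k hk
          refine one_div_le_one_div_of_le (Real.sqrt_pos.2 (by exact_mod_cast h2.1))
            (Real.sqrt_le_sqrt ?_)
          have h3 : ((σ k : ℕ) : ℝ) ≤ n := by exact_mod_cast h2.2
          linarith
        rw [Finset.sum_const, Finset.card_erase_of_mem hk0, hS, nsmul_eq_mul] at h1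
        simpa [div_eq_mul_inv] using h1
      have e5 : ∑ k ∈ S.erase k0, (x k - x k0) / Real.sqrt (σ k) =
          ∑ k ∈ S.erase k0, x k / Real.sqrt (σ k) - x k0 * ∑ k ∈ S.erase k0, 1 / Real.sqrt (σ k) := by
        rw [Finset.mul_sum, ← Finset.sum_sub_distrib]
        refine Finset.sum_congr rfl fun k _ => ?_
        ring
      have h6 := hA S (Finset.Subset.refl S) hne
      rw [hS] at h6
      push_cast at h6
      have h7 : ‖(x k0 : ℂ) * ∑ k ∈ S, t k‖ ≤ x k0 * (K * Real.sqrt ((n : ℝ) + 1)) := by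
        rw [norm_mul, Complex.norm_real, Real.norm_of_nonneg hm0]
        exact mul_le_mul_of_nonneg_left h6 hm0
      have h8 : x k0 * Real.sqrt ((n : ℝ) + 1) - x k0 * ∑ k ∈ S.erase k0, 1 / Real.sqrt (σ k) ≤
          x k0 / Real.sqrt ((n : ℝ) + 1) := by
        have h9 : Real.sqrt ((n : ℝ) + 1) - (n : ℝ) / Real.sqrt ((n : ℝ) + 1) =
            1 / Real.sqrt ((n : ℝ) + 1) := by
          field_simp
          nlinarith
        have h10 : x k0 * Real.sqrt ((n : ℝ) + 1) - x k0 * ∑ k ∈ S.erase k0, 1 / Real.sqrt (σ k) ≤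
            x k0 * (1 / Real.sqrt ((n : ℝ) + 1)) := by
          rw [← mul_sub, ← h9]
          exact mul_le_mul_of_nonneg_left (by linarith) hm0
        rwa [mul_one_div] at h10
      rw [e1, e3]
      refine (norm_add_le _ _).trans ((add_le_add h7 hb).trans ?_)
      rw [e5]
      have := mul_le_mul_of_nonneg_left h8 hK
      nlinarith

/-- nonnegative functions -/
theorem nonneg_bound {ι : Type*} [DecidableEq ι] (t : ι → ℂ) (K : ℝ) (hK : 0 ≤ K) (S : Finset ι)
    (hA : ∀ A ⊆ S, A.Nonempty → ‖∑ k ∈ A, t k‖ ≤ K * Real.sqrt A.card) (x : ι → ℝ)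
    (hx : ∀ k ∈ S, 0 ≤ x k) :
    ‖∑ k ∈ S, t k * (x k : ℂ)‖ ≤
      K * (Real.sqrt (∑ k ∈ S, x k ^ 2) * Real.sqrt (1 + Real.log S.card)) := by
  obtain ⟨σ, hinj, hσ, hb⟩ := sorted t K hK S.card S rfl hA x hx
  refine hb.trans (mul_le_mul_of_nonneg_left ?_ hK)
  have h1 : ∑ k ∈ S, x k / Real.sqrt (σ k) = ∑ k ∈ S, x k * (1 / Real.sqrt (σ k)) :=
    Finset.sum_congr rfl fun k _ => by ring
  rw [h1]
  refine (Real.sum_mul_le_sqrt_mul_sqrt S x fun k => 1 / Real.sqrt (σ k)).trans
    (mul_le_mul_of_nonneg_left (Real.sqrt_le_sqrt ?_) (Real.sqrt_nonneg _))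
  have h2 : ∑ k ∈ S, (1 / Real.sqrt (σ k)) ^ 2 = ∑ j ∈ S.image σ, (1 : ℝ) / (j : ℝ) := by
    rw [Finset.sum_image hinj]
    refine Finset.sum_congr rfl fun k _ => ?_
    rw [div_pow, one_pow, Real.sq_sqrt (Nat.cast_nonneg _)]
  have h3 : ∑ j ∈ S.image σ, (1 : ℝ) / (j : ℝ) ≤ ∑ j ∈ Finset.Icc 1 S.card, (1 : ℝ) / (j : ℝ) := by
    refine Finset.sum_le_sum_of_subset_of_nonneg ?_ fun j _ _ => by positivity
    intro j hj
    obtain ⟨k, hk, rfl⟩ := Finset.mem_image.1 hj
    exact Finset.mem_Icc.2 (hσ k hk)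
  have h4 : ∑ j ∈ Finset.Icc 1 S.card, (1 : ℝ) / (j : ℝ) = ((harmonic S.card : ℚ) : ℝ) := by
    rw [harmonic_eq_sum_Icc]
    push_cast
    exact Finset.sum_congr rfl fun j _ => one_div _
  rw [h2]
  exact h3.trans (h4.le.trans (harmonic_le_one_add_log _))

/-- complex functions -/
theorem complex_bound {ι : Type*} [DecidableEq ι] (t : ι → ℂ) (K : ℝ) (hK : 0 ≤ K) (S : Finset ι)
    (hA : ∀ A ⊆ S, A.Nonempty → ‖∑ k ∈ A, t k‖ ≤ K * Real.sqrt A.card) (x : ι → ℂ) :
    ‖∑ k ∈ S, t k * x k‖ ≤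
      4 * (K * (Real.sqrt (∑ k ∈ S, ‖x k‖ ^ 2) * Real.sqrt (1 + Real.log S.card))) := by
  have key : ∀ y : ι → ℝ, (∀ k, 0 ≤ y k) → (∀ k, y k ≤ ‖x k‖) → ‖∑ k ∈ S, t k * (y k : ℂ)‖ ≤
      K * (Real.sqrt (∑ k ∈ S, ‖x k‖ ^ 2) * Real.sqrt (1 + Real.log S.card)) := by
    intro y hy0 hy1
    refine (nonneg_bound t K hK S hA y fun k _ => hy0 k).trans (mul_le_mul_of_nonneg_left
      (mul_le_mul_of_nonneg_right (Real.sqrt_le_sqrt (Finset.sum_le_sum fun k _ => ?_))
        (Real.sqrt_nonneg _)) hK)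
    exact pow_le_pow_left₀ (hy0 k) (hy1 k) 2
  have h1 := key (fun k => max (x k).re 0) (fun k => le_max_right _ _) (fun k =>
    max_le ((le_abs_self _).trans (Complex.abs_re_le_norm _)) (norm_nonneg _))
  have h2 := key (fun k => max (-(x k).re) 0) (fun k => le_max_right _ _) (fun k =>
    max_le ((neg_le_abs _).trans (Complex.abs_re_le_norm _)) (norm_nonneg _))
  have h3 := key (fun k => max (x k).im 0) (fun k => le_max_right _ _) (fun k =>
    max_le ((le_abs_self _).trans (Complex.abs_im_le_norm _)) (norm_nonneg _))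
  have h4 := key (fun k => max (-(x k).im) 0) (fun k => le_max_right _ _) (fun k =>
    max_le ((neg_le_abs _).trans (Complex.abs_im_le_norm _)) (norm_nonneg _))
  have hmax : ∀ r : ℝ, max r 0 - max (-r) 0 = r := by
    intro r
    rcases le_total 0 r with h | h
    · rw [max_eq_left h, max_eq_right (by linarith)]; ring
    · rw [max_eq_right h, max_eq_left (by linarith)]; ring
  have e : ∑ k ∈ S, t k * x k = ∑ k ∈ S, t k * ((max (x k).re 0 : ℝ) : ℂ) -
      ∑ k ∈ S, t k * ((max (-(x k).re) 0 : ℝ) : ℂ) +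
      (Complex.I * ∑ k ∈ S, t k * ((max (x k).im 0 : ℝ) : ℂ) -
        Complex.I * ∑ k ∈ S, t k * ((max (-(x k).im) 0 : ℝ) : ℂ)) := by
    rw [Finset.mul_sum, Finset.mul_sum, ← Finset.sum_sub_distrib, ← Finset.sum_sub_distrib,
      ← Finset.sum_add_distrib]
    refine Finset.sum_congr rfl fun k _ => ?_
    have hr : ((max (x k).re 0 : ℝ) : ℂ) - ((max (-(x k).re) 0 : ℝ) : ℂ) = ((x k).re : ℂ) := by
      rw [← Complex.ofReal_sub, hmax]
    have hi : ((max (x k).im 0 : ℝ) : ℂ) - ((max (-(x k).im) 0 : ℝ) : ℂ) = ((x k).im : ℂ) := by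
      rw [← Complex.ofReal_sub, hmax]
    calc t k * x k = t k * (((x k).re : ℂ) + ((x k).im : ℂ) * Complex.I) := by
          rw [Complex.re_add_im]
      _ = _ := by
          rw [← hr, ← hi]
          ring
  rw [e]
  refine (norm_add_le _ _).trans ?_
  have h5 := norm_sub_le (∑ k ∈ S, t k * ((max (x k).re 0 : ℝ) : ℂ))
    (∑ k ∈ S, t k * ((max (-(x k).re) 0 : ℝ) : ℂ))
  have h6 := norm_sub_le (Complex.I * ∑ k ∈ S, t k * ((max (x k).im 0 : ℝ) : ℂ))
    (Complex.I * ∑ k ∈ S, t k * ((max (-(x k).im) 0 : ℝ) : ℂ))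
  rw [norm_mul, norm_mul, Complex.norm_I, one_mul, one_mul] at h6
  linarith

/-- the number of wave vectors -/
theorem card_cub (R : ℕ) : (cub R).card = (2 * R + 1) ^ 3 := by
  unfold cub
  rw [Fintype.card_piFinset, Finset.prod_const, Int.card_Icc, Finset.card_univ, Fintype.card_fin]
  congr 1
  omega

theorem t_DIG : S_DIG := by
  refine ⟨64 * 3 ^ 3, by norm_num, ?_⟩
  intro R hR a L hL ha hbox x y z
  set S := cub R with hS
  set W : ℝ := Real.sqrt (1 + Real.log S.card) with hW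
  have hW0 : 0 ≤ W := Real.sqrt_nonneg _
  have hN : ∀ w : Wv → ℂ, 0 ≤ N2 R w := fun w => Real.sqrt_nonneg _
  -- the third argument
  have h3 : ∀ A ⊆ S, A.Nonempty → ∀ B ⊆ S, B.Nonempty →
      ‖∑ l ∈ B, ∑ k ∈ A, (a k l : ℂ) * z (-(k + l))‖ ≤
        4 * (L * Real.sqrt A.card * Real.sqrt B.card * (N2 R z * W)) := by
    intro A hA hA0 B hB hB0
    have e : ∑ l ∈ B, ∑ k ∈ A, (a k l : ℂ) * z (-(k + l)) =
        ∑ m ∈ S, (∑ k ∈ A, ∑ l ∈ B, if -(k + l) = m then (a k l : ℂ) else 0) * z m := by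
      rw [Finset.sum_comm]
      have e1 : ∀ k l, (a k l : ℂ) * z (-(k + l)) =
          ∑ m ∈ S, (if -(k + l) = m then (a k l : ℂ) else 0) * z m := by
        intro k l
        by_cases h0 : a k l = 0
        · simp [h0]
        · rw [Finset.sum_eq_single (-(k + l))]
          · rw [if_pos rfl]
          · intro m _ hm
            rw [if_neg (Ne.symm hm), zero_mul]
          · intro h
            exact absurd (ha k l h0) h
      rw [Finset.sum_congr rfl fun k _ => Finset.sum_congr rfl fun l _ => e1 k l]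
      rw [Finset.sum_congr rfl fun k (_ : k ∈ A) => Finset.sum_comm, Finset.sum_comm]
      refine Finset.sum_congr rfl fun m _ => ?_
      rw [Finset.sum_mul]
      exact Finset.sum_congr rfl fun k _ => (Finset.sum_mul _ _ _).symm
    rw [e]
    refine (complex_bound _ (L * Real.sqrt A.card * Real.sqrt B.card) (by positivity) S ?_ z).trans
      (le_of_eq rfl)
    intro C hC hC0
    have e2 : ∑ m ∈ C, ∑ k ∈ A, ∑ l ∈ B, (if -(k + l) = m then (a k l : ℂ) else 0) =
        ((Box a A B C : ℝ) : ℂ) := by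
      unfold Box
      rw [Finset.sum_comm]
      push_cast
      refine Finset.sum_congr rfl fun k _ => ?_
      rw [Finset.sum_comm]
      refine Finset.sum_congr rfl fun l _ => ?_
      rw [Finset.sum_ite_eq C (-(k + l)) fun _ => (a k l : ℂ)]
      split_ifs <;> simp
    rw [e2, Complex.norm_real, Real.norm_eq_abs]
    refine (hbox A hA B hB C hC hA0 hB0 hC0).trans (le_of_eq ?_)
    rw [Real.sqrt_mul (by positivity), Real.sqrt_mul (by positivity)]
    ring
  -- the second argument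
  have h2 : ∀ A ⊆ S, A.Nonempty →
      ‖∑ k ∈ A, ∑ l ∈ S, (a k l : ℂ) * y l * z (-(k + l))‖ ≤
        4 * (4 * (L * Real.sqrt A.card * (N2 R z * W)) * (N2 R y * W)) := by
    intro A hA hA0
    have e : ∑ k ∈ A, ∑ l ∈ S, (a k l : ℂ) * y l * z (-(k + l)) =
        ∑ l ∈ S, (∑ k ∈ A, (a k l : ℂ) * z (-(k + l))) * y l := by
      rw [Finset.sum_comm]
      refine Finset.sum_congr rfl fun l _ => ?_
      rw [Finset.sum_mul]
      exact Finset.sum_congr rfl fun k _ => by ring
    rw [e]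
    have hz := hN z
    refine (complex_bound _ (4 * (L * Real.sqrt A.card * (N2 R z * W))) (by positivity) S ?_ y).trans
      (le_of_eq rfl)
    intro B hB hB0
    refine (h3 A hA hA0 B hB hB0).trans (le_of_eq ?_)
    ring
  -- the first argument
  have h1 : ‖Tri a R x y z‖ ≤
      4 * (4 * (4 * (L * (N2 R z * W)) * (N2 R y * W)) * (N2 R x * W)) := by
    have e : Tri a R x y z = ∑ k ∈ S, (∑ l ∈ S, (a k l : ℂ) * y l * z (-(k + l))) * x k := by
      unfold Tri
      refine Finset.sum_congr rfl fun k _ => ?_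
      rw [Finset.sum_mul]
      exact Finset.sum_congr rfl fun l _ => by ring
    rw [e]
    have hz := hN z
    have hy := hN y
    refine (complex_bound _ (4 * (4 * (L * (N2 R z * W)) * (N2 R y * W))) (by positivity) S ?_
      x).trans (le_of_eq rfl)
    intro A hA hA0
    refine (h2 A hA hA0).trans (le_of_eq ?_)
    ring
  -- the logarithm
  have hlog : 0 ≤ Real.log (2 * (R : ℝ) + 1) := Real.log_nonneg (by
    have : (0 : ℝ) ≤ R := Nat.cast_nonneg R
    linarith)
  have hW2 : W ≤ 3 * (1 + Real.log (2 * (R : ℝ) + 1)) := by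
    have h5 : 1 + Real.log (S.card : ℝ) = 1 + 3 * Real.log (2 * (R : ℝ) + 1) := by
      rw [hS, card_cub]
      push_cast
      rw [Real.log_pow]
      push_cast
      ring
    rw [hW, h5]
    rw [show (3 * (1 + Real.log (2 * (R : ℝ) + 1)) : ℝ) =
      Real.sqrt ((3 * (1 + Real.log (2 * (R : ℝ) + 1))) ^ 2) from
        (Real.sqrt_sq (by positivity)).symm]
    apply Real.sqrt_le_sqrt
    nlinarith
  have hW3 : W ^ 3 ≤ (3 * (1 + Real.log (2 * (R : ℝ) + 1))) ^ 3 := pow_le_pow_left₀ hW0 hW2 3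
  have hP : 0 ≤ 64 * L * (N2 R x * N2 R y * N2 R z) := by
    have := hN x
    have := hN y
    have := hN z
    positivity
  calc ‖Tri a R x y z‖ ≤ 4 * (4 * (4 * (L * (N2 R z * W)) * (N2 R y * W)) * (N2 R x * W)) := h1
    _ = 64 * L * (N2 R x * N2 R y * N2 R z) * W ^ 3 := by ring
    _ ≤ 64 * L * (N2 R x * N2 R y * N2 R z) * (3 * (1 + Real.log (2 * (R : ℝ) + 1))) ^ 3 :=
        mul_le_mul_of_nonneg_left hW3 hP
    _ = _ := by ring

end Pool.Agent.U170.RT.DIG
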